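import Mathlib

/-!
# Strips of the first bad level (MP_448cb3_co, `b_1 = 2 b_0`): arithmetic

The defects `c 0, …, c (n+1)` of the edges of a strip and the defect `β` of the pair of its ends.
-/

namespace Pool.Agent.GaussPoset.Win

open Finset

lemma Ar_zero_of_sum {s T : Finset ℕ} {f : ℕ → ℤ} (hf : ∀ a ∈ s, 0 ≤ f a) (hT : T ⊆ s)
    (h : ∑ a ∈ s, f a = ∑ a ∈ T, f a) : ∀ a ∈ s, a ∉ T → f a = 0 := by
  intro a ha haT
  have h1 := Finset.sum_sdiff (f := f) hT
  have h2 : ∑ a ∈ s \ T, f a = 0 := by linarith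
  rw [Finset.sum_eq_zero_iff_of_nonneg] at h2
  · exact h2 a (mem_sdiff.2 ⟨ha, haT⟩)
  · intro b hb
    exact hf b (mem_sdiff.1 hb).1

lemma Ar_sum_two (n : ℕ) (c : ℕ → ℤ) :
    ∑ a ∈ range (n + 1), (c a + c (a + 1)) = 2 * ∑ k ∈ range (n + 2), c k - c 0 - c (n + 1) := by
  rw [sum_add_distrib]
  have h1 : ∑ k ∈ range (n + 2), c k = ∑ k ∈ range (n + 1), c k + c (n + 1) := sum_range_succ _ _
  have h2 : ∑ k ∈ range (n + 2), c k = ∑ k ∈ range (n + 1), c (k + 1) + c 0 := sum_range_succ' _ _
  linarith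

/-- the arithmetic of a strip -/
theorem Ar_strip {n : ℕ} {c : ℕ → ℤ} {β : ℤ} (hc : ∀ k, k < n + 2 → -1 ≤ c k)
    (hs1 : ∀ a, a < n + 1 → -1 ≤ c a + c (a + 1)) (hs2 : ∀ a, a < n + 1 → c a + c (a + 1) ≤ 0)
    (h0 : c 0 + β ≤ 1) (h1 : c (n + 1) + β ≤ 1) (hβ : 0 ≤ β)
    (E1 : ∑ k ∈ range (n + 2), c k + β = 0)
    (E2 : (c 0 + β) ^ 2 + (c (n + 1) + β) ^ 2 + ∑ a ∈ range (n + 1), (c a + c (a + 1)) ^ 2 =
      ∑ k ∈ range (n + 2), c k ^ 2 + β ^ 2) :
    (β = 0 ∧ ∀ k, k < n + 2 → c k = 0) ∨
    (β = 1 ∧ c 0 = -1 ∧ ∀ k, 1 ≤ k → k < n + 2 → c k = 0) ∨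
    (β = 1 ∧ c (n + 1) = -1 ∧ ∀ k, k < n + 1 → c k = 0) ∨
    (β = 1 ∧ c 0 = 0 ∧ c (n + 1) = 0 ∧ 1 ≤ n) ∨
    (β = 0 ∧ c 0 = 1 ∧ c 1 = -1 ∧ ∀ k, 2 ≤ k → k < n + 2 → c k = 0) ∨
    (β = 0 ∧ c (n + 1) = 1 ∧ c n = -1 ∧ ∀ k, k < n → c k = 0) ∨
    (β = 0 ∧ 3 ≤ n ∧ c 0 = 1 ∧ c 1 = -1 ∧ c n = -1 ∧ c (n + 1) = 1 ∧
      ∀ k, 2 ≤ k → k < n → c k = 0) := by
  have e1 : ∑ a ∈ range (n + 1), (c a + c (a + 1)) ^ 2 =
      -∑ a ∈ range (n + 1), (c a + c (a + 1)) := by
    rw [← sum_neg_distrib]
    refine sum_congr rfl fun a ha => ?_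
    rw [mem_range] at ha
    have h2 := hs1 a ha
    have h3 := hs2 a ha
    have h4 : c a + c (a + 1) = -1 ∨ c a + c (a + 1) = 0 := by omega
    rcases h4 with h4 | h4
    · rw [h4]
      norm_num
    · rw [h4]
      norm_num
  have e2 : ∑ k ∈ range (n + 2), c k ^ 2 =
      c 0 ^ 2 + ∑ k ∈ range n, c (k + 1) ^ 2 + c (n + 1) ^ 2 := by
    rw [sum_range_succ, sum_range_succ']
    ring
  rw [e1, Ar_sum_two, e2] at E2
  have hmid : ∑ k ∈ range n, c (k + 1) ^ 2 =
      β ^ 2 + 2 * β + (2 * β + 1) * (c 0 + c (n + 1)) := by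
    linear_combination -E2 - 2 * E1
  have hmid0 : 0 ≤ ∑ k ∈ range n, c (k + 1) ^ 2 := sum_nonneg fun k _ => sq_nonneg _
  have hc0 := hc 0 (by omega)
  have hc1 := hc (n + 1) (by omega)
  have hsq : ∀ k ∈ range n, 0 ≤ c (k + 1) ^ 2 := fun k _ => sq_nonneg _
  -- all middle defects vanish
  have key0 : ∑ k ∈ range n, c (k + 1) ^ 2 = 0 → ∀ k, 1 ≤ k → k < n + 1 → c k = 0 := by
    intro h k hk1 hk2
    have h2 := (Finset.sum_eq_zero_iff_of_nonneg hsq).1 h (k - 1) (mem_range.2 (by omega))
    rw [Nat.sub_add_cancel hk1] at h2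
    exact pow_eq_zero_iff (two_ne_zero) |>.1 h2
  have hβ3 : β = 0 ∨ β = 1 ∨ β = 2 := by omega
  rcases hβ3 with rfl | rfl | rfl
  · -- no pair of the ends
    have hmid' : ∑ k ∈ range n, c (k + 1) ^ 2 = c 0 + c (n + 1) := by
      rw [hmid]
      ring
    have hA : c 0 = -1 ∨ c 0 = 0 ∨ c 0 = 1 := by omega
    have hB : c (n + 1) = -1 ∨ c (n + 1) = 0 ∨ c (n + 1) = 1 := by omega
    -- the neighbours of a doubled end edge
    have hn1 : c 0 = 1 → c 1 = -1 := by
      intro h
      have h2 := hs2 0 (by omega)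
      have h3 := hc 1 (by omega)
      simp only [Nat.zero_add] at h2
      omega
    have hn2 : c (n + 1) = 1 → c n = -1 := by
      intro h
      have h2 := hs2 n (by omega)
      have h3 := hc n (by omega)
      omega
    rcases hA with hA | hA | hA <;> rcases hB with hB | hB | hB
    · exfalso; omega
    · exfalso; omega
    · -- (-1, 1)
      have h3 := key0 (by omega)
      have h4 := hn2 hB
      have h5 : n = 0 := by
        by_contra hne
        have := h3 n (by omega) (by omega)
        omega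
      subst h5
      exact Or.inr (Or.inr (Or.inr (Or.inr (Or.inr (Or.inl
        ⟨rfl, hB, h4, fun k hk => absurd hk (by omega)⟩)))))
    · exfalso; omega
    · -- (0, 0)
      have h3 := key0 (by omega)
      refine Or.inl ⟨rfl, fun k hk => ?_⟩
      rcases Nat.eq_zero_or_pos k with h4 | h4
      · rw [h4]
        exact hA
      · rcases Nat.lt_or_ge k (n + 1) with h5 | h5
        · exact h3 k h4 h5
        · have : k = n + 1 := by omega
          rw [this]
          exact hB
    · -- (0, 1)
      have h4 := hn2 hB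
      have h5 : 1 ≤ n := by
        by_contra hne
        have : n = 0 := by omega
        rw [this] at h4
        omega
      have h6 := Ar_zero_of_sum (s := range n) (T := {n - 1}) (f := fun k => c (k + 1) ^ 2) hsq
        (by
          intro a ha
          rw [mem_singleton] at ha
          rw [mem_range]
          omega)
        (by
          rw [sum_singleton, Nat.sub_add_cancel h5, h4, hmid', hA, hB]
          norm_num)
      refine Or.inr (Or.inr (Or.inr (Or.inr (Or.inr (Or.inl ⟨rfl, hB, h4, fun k hk => ?_⟩)))))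
      rcases Nat.eq_zero_or_pos k with h7 | h7
      · rw [h7]
        exact hA
      · have h8 := h6 (k - 1) (mem_range.2 (by omega)) (by
          rw [mem_singleton]
          omega)
        simp only [Nat.sub_add_cancel h7] at h8
        exact pow_eq_zero_iff (two_ne_zero) |>.1 h8
    · -- (1, -1)
      have h3 := key0 (by omega)
      have h4 := hn1 hA
      have h5 : n = 0 := by
        by_contra hne
        have := h3 1 le_rfl (by omega)
        omega
      subst h5
      exact Or.inr (Or.inr (Or.inr (Or.inr (Or.inl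
        ⟨rfl, hA, h4, fun k hk1 hk2 => absurd hk2 (by omega)⟩))))
    · -- (1, 0)
      have h4 := hn1 hA
      have h5 : 1 ≤ n := by
        by_contra hne
        have : n = 0 := by omega
        rw [this] at hB
        simp only [Nat.zero_add] at hB
        omega
      have h6 := Ar_zero_of_sum (s := range n) (T := {0}) (f := fun k => c (k + 1) ^ 2) hsq
        (by
          intro a ha
          rw [mem_singleton] at ha
          rw [mem_range]
          omega)
        (by
          rw [sum_singleton, Nat.zero_add, h4, hmid', hA, hB]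
          norm_num)
      refine Or.inr (Or.inr (Or.inr (Or.inr (Or.inl ⟨rfl, hA, h4, fun k hk1 hk2 => ?_⟩))))
      rcases Nat.lt_or_ge k (n + 1) with h7 | h7
      · have h8 := h6 (k - 1) (mem_range.2 (by omega)) (by
          rw [mem_singleton]
          omega)
        simp only [Nat.sub_add_cancel (show 1 ≤ k by omega)] at h8
        exact pow_eq_zero_iff (two_ne_zero) |>.1 h8
      · have : k = n + 1 := by omega
        rw [this]
        exact hB
    · -- (1, 1)
      have h3 := hn1 hA
      have h4 := hn2 hB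
      have h5 : n ≠ 0 := by
        rintro rfl
        omega
      have h6 : n ≠ 1 := by
        rintro rfl
        rw [hA, hB] at hmid'
        simp only [Finset.range_one, sum_singleton, Nat.zero_add] at hmid'
        rw [h3] at hmid'
        norm_num at hmid'
      have h7 : n ≠ 2 := by
        rintro rfl
        have h8 := hs1 1 (by omega)
        simp only [Nat.reduceAdd] at h8
        omega
      have h8 := Ar_zero_of_sum (s := range n) (T := {0, n - 1}) (f := fun k => c (k + 1) ^ 2) hsq
        (by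
          intro a ha
          rw [mem_insert, mem_singleton] at ha
          rw [mem_range]
          omega)
        (by
          rw [sum_pair (by omega), Nat.zero_add, Nat.sub_add_cancel (show 1 ≤ n by omega), h3, h4,
            hmid', hA, hB]
          norm_num)
      refine Or.inr (Or.inr (Or.inr (Or.inr (Or.inr (Or.inr
        ⟨rfl, by omega, hA, h3, h4, hB, fun k hk1 hk2 => ?_⟩)))))
      have h9 := h8 (k - 1) (mem_range.2 (by omega)) (by
        rw [mem_insert, mem_singleton]
        omega)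
      simp only [Nat.sub_add_cancel (show 1 ≤ k by omega)] at h9
      exact pow_eq_zero_iff (two_ne_zero) |>.1 h9
  · -- one pair of the ends
    have hmid' : ∑ k ∈ range n, c (k + 1) ^ 2 = 3 + 3 * (c 0 + c (n + 1)) := by
      rw [hmid]
      ring
    have hA : c 0 = -1 ∨ c 0 = 0 := by omega
    have hB : c (n + 1) = -1 ∨ c (n + 1) = 0 := by omega
    rcases hA with hA | hA <;> rcases hB with hB | hB
    · exfalso; omega
    · have h3 := key0 (by omega)
      refine Or.inr (Or.inl ⟨rfl, hA, fun k hk1 hk2 => ?_⟩)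
      rcases Nat.lt_or_ge k (n + 1) with h5 | h5
      · exact h3 k hk1 h5
      · have : k = n + 1 := by omega
        rw [this]
        exact hB
    · have h3 := key0 (by omega)
      refine Or.inr (Or.inr (Or.inl ⟨rfl, hB, fun k hk => ?_⟩))
      rcases Nat.eq_zero_or_pos k with h4 | h4
      · rw [h4]
        exact hA
      · exact h3 k h4 hk
    · refine Or.inr (Or.inr (Or.inr (Or.inl ⟨rfl, hA, hB, ?_⟩)))
      by_contra hne
      have : n = 0 := by omega
      subst this
      rw [hA, hB] at hmid'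
      simp at hmid'
  · -- two pairs of the ends
    exfalso
    have hA : c 0 = -1 := by omega
    have hB : c (n + 1) = -1 := by omega
    rw [hmid, hA, hB] at hmid0
    norm_num at hmid0

end Pool.Agent.GaussPoset.Win
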