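import Pool.Agent.W_448g_h5.GC
import Pool.Agent.W_448hul_h24.Hull

/-!
# Strips of the first bad level (MP_448cb3_co, `b_1 = 2 b_0`), part A

No element of level at most `j` is below two maximal elements, single-up elements have a chain
above them, and a double element of level `j + 1` has both covers below the same maximal element.
-/

namespace Pool.Agent.GaussPoset.Win

set_option linter.unusedSectionVars false

open Finset

universe u

variable {P : Type u} [Fintype P] [PartialOrder P] [DecidableEq P] {r j : ℕ}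

lemma Pre.mono (h : Pre P r j) {k : ℕ} (hk1 : 1 ≤ k) (hk : k ≤ j) : Pre P r k :=
  ⟨h.H, h.two, hk1, by have := h.hr; omega, fun l hl => h.good l (by omega)⟩

lemma StA_ucv_pos {v v' y : P} (h : v ⋖ y) (h' : v' ⋖ y) : 1 ≤ ucv v v' := by
  classical
  unfold ucv
  exact Finset.card_pos.2 ⟨y, by simp [h, h']⟩

lemma StA_dcv_pos {v v' y : P} (h : y ⋖ v) (h' : y ⋖ v') : 1 ≤ dcv v v' := by
  classical
  unfold dcv
  exact Finset.card_pos.2 ⟨y, by simp [h, h']⟩

lemma StA_of_ucv {v v' : P} (h : 1 ≤ ucv v v') : ∃ y, v ⋖ y ∧ v' ⋖ y := by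
  classical
  unfold ucv at h
  obtain ⟨y, hy⟩ := Finset.card_pos.1 h
  rw [mem_filter] at hy
  exact ⟨y, hy.2⟩

lemma StA_of_dcv {v v' : P} (h : 1 ≤ dcv v v') : ∃ y, y ⋖ v ∧ y ⋖ v' := by
  classical
  unfold dcv at h
  obtain ⟨y, hy⟩ := Finset.card_pos.1 h
  rw [mem_filter] at hy
  exact ⟨y, hy.2⟩

/-- no element of level at most `j` is below two maximal elements -/
theorem Pre.no_join (h : Pre P r j) : ∀ x : P, lev x ≤ j → ¬ Hul.Jn x := by
  suffices key : ∀ (n : ℕ) (x : P), lev x = n → n ≤ j → ¬ Hul.Jn x from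
    fun x hx => key _ x rfl hx
  intro n
  induction n with
  | zero =>
    rintro x hx - ⟨v, v', h1, h2, h3, h4, h5⟩
    have h6 : ∀ v : P, x ≤ v → x = v := fun v hv => by
      by_contra hne
      have := lev_strictAnti (lt_of_le_of_ne hv hne)
      omega
    exact h3 ((h6 v h4).symm.trans (h6 v' h5))
  | succ n ih =>
    rintro x hx hn ⟨v, v', h1, h2, h3, h4, h5⟩
    have hxv : x < v := lt_of_le_of_ne h4 (by rintro rfl; omega)
    have hxv' : x < v' := lt_of_le_of_ne h5 (by rintro rfl; omega)
    obtain ⟨y, hy, hy2⟩ := Hul.exists_cov hxv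
    obtain ⟨y', hy', hy2'⟩ := Hul.exists_cov hxv'
    have hl := lev_covBy h.H.gauss hy
    have hl' := lev_covBy h.H.gauss hy'
    by_cases hyy : y = y'
    · exact ih y (by omega) (by omega) ⟨v, v', h1, h2, h3, hy2, hyy ▸ hy2'⟩
    · have hg := h.good n (by omega) y y' (by omega) (by omega) hyy
      have hd := StA_dcv_pos hy hy'
      rw [← hg] at hd
      obtain ⟨w, hw, hw'⟩ := StA_of_ucv hd
      obtain ⟨t, ht, ht2⟩ := exists_above' (x := w) (j := 0) (Nat.zero_le _)
      have e1 := Hul.top_unique (ih y (by omega) (by omega)) h1 ht2 hy2 (hw.le.trans ht)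
      have e2 := Hul.top_unique (ih y' (by omega) (by omega)) h2 ht2 hy2' (hw'.le.trans ht)
      exact h3 (e1.trans e2.symm)

/-- the elements of level `k` above an element with one upper cover -/
lemma StA_cc_uc {v y : P} {k : ℕ} (hu : uc v = {y}) (hk : k < lev v) :
    Hul.cc k v = Hul.cc k y := by
  classical
  unfold Hul.cc
  congr 1
  ext x
  simp only [mem_filter, mem_lv]
  have hvy : v ⋖ y := by
    rw [← mem_uc, hu]
    exact mem_singleton_self y
  constructor
  · rintro ⟨h1, h2⟩
    refine ⟨h1, ?_⟩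
    have hlt : v < x := lt_of_le_of_ne h2 (by rintro rfl; omega)
    obtain ⟨s, hs, hs2⟩ := Hul.exists_cov hlt
    have : s ∈ uc v := mem_uc.2 hs
    rw [hu, mem_singleton] at this
    rwa [← this]
  · rintro ⟨h1, h2⟩
    exact ⟨h1, hvy.le.trans h2⟩

/-- single-up elements have a chain above them -/
theorem Pre.chain (h : Pre P r j) : ∀ {v : P}, lev v ≤ j → (uc v).card = 1 →
    ∀ {k : ℕ}, k < lev v → Hul.cc k v = 1 := by
  suffices key : ∀ (n : ℕ) (v : P), lev v = n → n ≤ j → (uc v).card = 1 → ∀ k : ℕ, k < lev v →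
      Hul.cc k v = 1 from fun {_} hv h1 {_} hk => key _ _ rfl hv h1 _ hk
  intro n
  induction n with
  | zero =>
    intro v hv _ _ k hk
    omega
  | succ n ih =>
    intro v hv hn h1 k hk
    obtain ⟨y, hy⟩ := Finset.card_eq_one.1 h1
    have hyu : y ∈ uc v := by
      rw [hy]
      exact mem_singleton_self y
    have hl := lev_covBy h.H.gauss (mem_uc.1 hyu)
    rw [StA_cc_uc hy hk]
    rcases Nat.lt_or_ge k (lev y) with hky | hky
    · exact ih y (by omega) (by omega) (h.straight (by omega) h1 (mem_uc.1 hyu) (by omega)) k hky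
    · have : k = lev y := by omega
      rw [this]
      exact Hul.cc_self y

/-- The upper covers of a double element of level `j + 1` are neighbours, or both are single-up and
below the same maximal element. -/
theorem Pre.dbl_top (h : Pre P r j) {v v' z : P} (hz : lev z = j + 1) (hzv : z ⋖ v) (hzv' : z ⋖ v')
    (hne : v ≠ v') : ucv v v' = 1 ∨ ((uc v).card = 1 ∧ (uc v').card = 1 ∧ ucv v v' = 0 ∧
      ∃ t, lev t = 0 ∧ v ≤ t ∧ v' ≤ t) := by
  classical
  have huc : uc z = {v, v'} := by
    symm
    refine Finset.eq_of_subset_of_card_le ?_ ?_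
    · intro x hx
      rw [mem_insert, mem_singleton] at hx
      rcases hx with rfl | rfl
      · exact mem_uc.2 hzv
      · exact mem_uc.2 hzv'
    · rw [Finset.card_pair hne]
      exact uc_card_le h.H z
  have hl : lev v = j := by
    have := lev_covBy h.H.gauss hzv
    omega
  have hl' : lev v' = j := by
    have := lev_covBy h.H.gauss hzv'
    omega
  rcases h.dbl_cases hz hzv hzv' hne with h1 | ⟨h1, h2, h3⟩
  · exact Or.inl h1
  · refine Or.inr ⟨h1, h2, h3, ?_⟩
    by_contra hcon
    push Not at hcon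
    obtain ⟨t, ht, ht2⟩ := exists_above' (x := v) (j := 0) (Nat.zero_le _)
    obtain ⟨t', ht', ht2'⟩ := exists_above' (x := v') (j := 0) (Nat.zero_le _)
    have hJ : Hul.Jn z := ⟨t, t', ht2, ht2', fun he => hcon t ht2 ht (by rw [he]; exact ht'),
      hzv.le.trans ht, hzv'.le.trans ht'⟩
    obtain ⟨k, hk0, hk, hk2⟩ := Hul.no_straight h.H hJ fun u hu => by
      by_contra hlt
      exact h.no_join u (by omega) hu
    apply hk2
    have e1 : Hul.cc k v = 1 ∨ k = j := by
      rcases Nat.lt_or_ge k j with hkj | hkj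
      · left
        exact h.chain hl.le h1 (by omega)
      · right
        omega
    have f1 : Hul.cc k v = 1 := by
      rcases e1 with e1 | e1
      · exact e1
      · rw [e1, ← hl]
        exact Hul.cc_self v
    have f2 : Hul.cc k v' = 1 := by
      rcases Nat.lt_or_ge k j with hkj | hkj
      · exact h.chain hl'.le h2 (by omega)
      · have : k = j := by omega
        rw [this, ← hl']
        exact Hul.cc_self v'
    have f3 : Hul.cc k z = Hul.cc k v + Hul.cc k v' := by
      unfold Hul.cc
      rw [← Finset.card_union_of_disjoint]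
      · congr 1
        ext x
        simp only [mem_filter, mem_lv, mem_union]
        constructor
        · rintro ⟨g1, g2⟩
          have hlt : z < x := lt_of_le_of_ne g2 (by rintro rfl; omega)
          obtain ⟨s, hs, hs2⟩ := Hul.exists_cov hlt
          have : s ∈ uc z := mem_uc.2 hs
          rw [huc, mem_insert, mem_singleton] at this
          rcases this with rfl | rfl
          · exact Or.inl ⟨g1, hs2⟩
          · exact Or.inr ⟨g1, hs2⟩
        · rintro (⟨g1, g2⟩ | ⟨g1, g2⟩)
          · exact ⟨g1, hzv.le.trans g2⟩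
          · exact ⟨g1, hzv'.le.trans g2⟩
      · rw [Finset.disjoint_left]
        intro x hx hx'
        rw [mem_filter] at hx hx'
        obtain ⟨s, hs, hs2⟩ := exists_above' (x := x) (j := 0) (Nat.zero_le _)
        exact hcon s hs2 (hx.2.trans hs) (hx'.2.trans hs)
    rw [f3, f1, f2]

/-- a level `j` element is below exactly one maximal element -/
lemma Pre.top_eq (h : Pre P r j) {x t t' : P} (hx : lev x ≤ j) (ht : lev t = 0) (ht' : lev t' = 0)
    (h1 : x ≤ t) (h2 : x ≤ t') : t = t' :=
  Hul.top_unique (h.no_join x hx) ht ht' h1 h2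

/-- neighbours of level at most `j` are below the same maximal element -/
lemma Pre.top_of_ucv (h : Pre P r j) {v v' t : P} (hv : lev v ≤ j) (hu : 1 ≤ ucv v v')
    (ht : lev t = 0) (hvt : v ≤ t) : v' ≤ t := by
  obtain ⟨y, hy, hy'⟩ := StA_of_ucv hu
  obtain ⟨s, hs, hs2⟩ := exists_above' (x := y) (j := 0) (Nat.zero_le _)
  have := h.top_eq hv ht hs2 hvt (hy.le.trans hs)
  rw [this]
  exact hy'.le.trans hs

/-- a double element of level `j + 1` has both covers below the same maximal element -/
lemma Pre.top_of_dcv (h : Pre P r j) {v v' t : P} (hv : lev v = j) (hv' : lev v' = j)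
    (hu : 1 ≤ dcv v v') (ht : lev t = 0) (hvt : v ≤ t) : v' ≤ t := by
  by_cases hne : v = v'
  · rw [← hne]
    exact hvt
  obtain ⟨z, hz, hz'⟩ := StA_of_dcv hu
  have hl := lev_covBy h.H.gauss hz
  rcases h.dbl_top (by omega) hz hz' hne with h1 | ⟨-, -, -, s, hs, hs2, hs3⟩
  · exact h.top_of_ucv hv.le (by omega) ht hvt
  · rw [h.top_eq hv.le ht hs hvt hs2]
    exact hs3

/-- nothing connects the elements of level `j` below different maximal elements -/
theorem Pre.cross (h : Pre P r j) {v v' t t' : P} (hv : lev v = j) (hv' : lev v' = j)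
    (ht : lev t = 0) (ht' : lev t' = 0) (hvt : v ≤ t) (hvt' : v' ≤ t') (hne : t ≠ t') :
    dcv v v' = 0 ∧ ucv v v' = 0 := by
  constructor
  · by_contra hcon
    exact hne (h.top_eq hv'.le ht ht' (h.top_of_dcv hv hv' (by omega) ht hvt) hvt')
  · by_contra hcon
    exact hne (h.top_eq hv'.le ht ht' (h.top_of_ucv hv.le (by omega) ht hvt) hvt')

/-- the upper covers of elements below a pair with common lower cover -/
theorem Pre.edge (h : Pre P r j) {v v' : P} (hv : lev v = j) (hne : v ≠ v')
    (hd : dcv v v' ≠ 0) : ucv v v' = 1 ∨ ((uc v).card = 1 ∧ (uc v').card = 1 ∧ ucv v v' = 0 ∧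
      ∃ t, lev t = 0 ∧ v ≤ t ∧ v' ≤ t) := by
  obtain ⟨z, hz, hz'⟩ := StA_of_dcv (Nat.one_le_iff_ne_zero.2 hd)
  have hl := lev_covBy h.H.gauss hz
  exact h.dbl_top (by omega) hz hz' hne

end Pool.Agent.GaussPoset.Win
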