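import Pool.Agent.W_448C_h48.StA

/-!
# Strips of the first bad level (MP_448cb3_co, `b_1 = 2 b_0`), part B

The elements of level `k ≤ j` below a maximal element form a path.
-/

namespace Pool.Agent.GaussPoset.Win

set_option linter.unusedSectionVars false

open Finset

universe u

variable {P : Type u} [Fintype P] [PartialOrder P] [DecidableEq P] {r j : ℕ}

/-- the elements of level `k` below the maximal element `t` are `x lo, …, x hi`, a path -/
structure SL (P : Type u) [Fintype P] [PartialOrder P] [DecidableEq P] (k : ℕ) (t : P)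
    (lo hi : ℕ) (x : ℕ → P) : Prop where
  lt : lo < hi
  hi_le : hi ≤ k
  lev_x : ∀ a, lo ≤ a → a ≤ hi → lev (x a) = k
  le_t : ∀ a, lo ≤ a → a ≤ hi → x a ≤ t
  inj : ∀ a b, lo ≤ a → a < b → b ≤ hi → x a ≠ x b
  surj : ∀ y, lev y = k → y ≤ t → ∃ a, lo ≤ a ∧ a ≤ hi ∧ x a = y
  nb : ∀ a, lo ≤ a → a < hi → ucv (x a) (x (a + 1)) = 1
  far : ∀ a b, lo ≤ a → a + 1 < b → b ≤ hi → ucv (x a) (x b) = 0
  inner : ∀ a, lo < a → a < hi → (uc (x a)).card = 2
  left : (uc (x lo)).card = 1 → lo = 0
  right : (uc (x hi)).card = 1 → hi = k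

lemma StB_ucv_comm (v v' : P) : ucv v v' = ucv v' v := by
  classical
  unfold ucv
  congr 1
  ext y
  simp only [mem_filter, mem_univ, true_and]
  exact and_comm

lemma StB_dcv_comm (v v' : P) : dcv v v' = dcv v' v := by
  classical
  unfold dcv
  congr 1
  ext y
  simp only [mem_filter, mem_univ, true_and]
  exact and_comm

/-- an element with one common lower cover -/
lemma StB_unique {v v' z z' : P} (hd : dcv v v' = 1) (h1 : z ⋖ v) (h2 : z ⋖ v') (h3 : z' ⋖ v)
    (h4 : z' ⋖ v') : z = z' := by
  classical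
  unfold dcv at hd
  obtain ⟨y, hy⟩ := Finset.card_eq_one.1 hd
  have e1 : z ∈ univ.filter (fun y : P => y ⋖ v ∧ y ⋖ v') := by simp [h1, h2]
  have e2 : z' ∈ univ.filter (fun y : P => y ⋖ v ∧ y ⋖ v') := by simp [h3, h4]
  rw [hy, mem_singleton] at e1 e2
  rw [e1, e2]

/-- two different elements above -/
lemma StB_uc_pair (H : Gr P r) {z v v' : P} (h1 : z ⋖ v) (h2 : z ⋖ v') (hne : v ≠ v') :
    uc z = {v, v'} := by
  classical
  symm
  refine Finset.eq_of_subset_of_card_le ?_ ?_
  · intro x hx
    rw [mem_insert, mem_singleton] at hx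
    rcases hx with rfl | rfl
    · exact mem_uc.2 h1
    · exact mem_uc.2 h2
  · rw [Finset.card_pair hne]
    exact uc_card_le H z

/-- level one -/
theorem Pre.sl_one (h : Pre P r 1) {t : P} (ht : lev t = 0) :
    ∃ x : ℕ → P, SL P 1 t 0 1 x := by
  classical
  obtain ⟨a, b, hab, hdc⟩ := Finset.card_eq_two.1 (h.two t ht)
  have ha : a ⋖ t := by
    rw [← mem_dc, hdc]
    simp
  have hb : b ⋖ t := by
    rw [← mem_dc, hdc]
    simp
  have hla := lev_covBy h.H.gauss ha
  have hlb := lev_covBy h.H.gauss hb
  refine ⟨fun n => if n = 0 then a else b, by omega, by omega, ?_, ?_, ?_, ?_, ?_, ?_, ?_, ?_, ?_⟩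
  · intro n _ hn
    rcases Nat.eq_zero_or_pos n with rfl | hn0
    · simp only [if_true]
      omega
    · rw [if_neg (by omega)]
      omega
  · intro n _ hn
    rcases Nat.eq_zero_or_pos n with rfl | hn0
    · simp only [if_true]
      exact ha.le
    · rw [if_neg (by omega)]
      exact hb.le
  · intro m n _ h1 h2
    have e1 : m = 0 := by omega
    have e2 : n = 1 := by omega
    subst e1 e2
    simpa using hab
  · intro y hy hyt
    have hlt : y < t := lt_of_le_of_ne hyt (by rintro rfl; omega)
    have hc : y ⋖ t := h.H.covBy_iff.2 ⟨hlt, by omega⟩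
    rw [← mem_dc, hdc, mem_insert, mem_singleton] at hc
    rcases hc with rfl | rfl
    · exact ⟨0, le_rfl, by omega, by simp⟩
    · exact ⟨1, by omega, le_rfl, by simp⟩
  · intro n _ hn
    have e1 : n = 0 := by omega
    subst e1
    simp only [if_true]
    rw [if_neg (by omega)]
    have h1 := h.ucv_le (lev a) a b (by omega) rfl hab
    have h2 := StA_ucv_pos ha hb
    omega
  · intro m n _ h1 h2
    omega
  · intro m h1 h2
    omega
  · intro _
    rfl
  · intro _
    rfl

/-- all covers of an element of level at most `j` below `t` are below `t` -/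
lemma Pre.cov_le (h : Pre P r j) {z v t : P} (hz : lev z ≤ j) (ht : lev t = 0) (hzt : z ≤ t)
    (hzv : z ⋖ v) : v ≤ t := by
  obtain ⟨s, hs, hs2⟩ := exists_above' (x := v) (j := 0) (Nat.zero_le _)
  rw [h.top_eq hz ht hs2 hzt (hzv.le.trans hs)]
  exact hs

/-- one step down -/
theorem SL.step {k : ℕ} (h : Pre P r (k + 1)) (hk : 1 ≤ k) {t : P} (ht : lev t = 0) {lo hi : ℕ}
    {x : ℕ → P} (S : SL P k t lo hi x) :
    ∃ (lo' hi' : ℕ) (x' : ℕ → P), SL P (k + 1) t lo' hi' x' := by
  classical
  have hK : Pre P r k := h.mono hk (by omega)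
  have hg := h.good k (by omega)
  have H := h.H
  have hlt := S.lt
  -- doubles
  have hd : ∀ a, lo < a → a ≤ hi → dcv (x (a - 1)) (x a) = 1 := by
    intro a h1 h2
    rw [← hg _ _ (S.lev_x _ (by omega) (by omega)) (S.lev_x _ h1.le h2)
      (S.inj _ _ (by omega) (by omega) h2)]
    have := S.nb (a - 1) (by omega) (by omega)
    rwa [Nat.sub_add_cancel (by omega)] at this
  have hy : ∀ a, ∃ y : P, lo < a → a ≤ hi → y ⋖ x (a - 1) ∧ y ⋖ x a := by
    intro a
    by_cases hc : lo < a ∧ a ≤ hi
    · obtain ⟨y, h1, h2⟩ := StA_of_dcv (hd a hc.1 hc.2).ge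
      exact ⟨y, fun _ _ => ⟨h1, h2⟩⟩
    · exact ⟨t, fun h1 h2 => absurd ⟨h1, h2⟩ hc⟩
  choose Y hY using hy
  have hsingle : ∀ {z : P} {a : ℕ}, lo ≤ a → a ≤ hi → z ⋖ x a → (uc z).card = 1 →
      (uc (x a)).card = 1 ∧ uc z = {x a} := by
    intro z a h1 h2 hz hz1
    constructor
    · have e1 := uc_card_le H (x a)
      by_contra hcon
      have e3 : (uc (x a)).card ≠ 0 := by
        intro h0
        obtain ⟨y, hy, hy2⟩ := exists_lev_succ (x := x a) (k := k - 1)
          (by rw [S.lev_x a h1 h2]; omega)
        have : y ∈ uc (x a) := mem_uc.2 (H.covBy_iff.2 ⟨hy, by rw [S.lev_x a h1 h2]; omega⟩)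
        rw [Finset.card_eq_zero.1 h0] at this
        exact absurd this (Finset.notMem_empty _)
      have e2 := hK.low_dbl (S.lev_x a h1 h2) (by omega) hz
      omega
    · symm
      refine Finset.eq_of_subset_of_card_le ?_ ?_
      · intro y hy
        rw [mem_singleton] at hy
        rw [hy]
        exact mem_uc.2 hz
      · rw [Finset.card_singleton, hz1]
  -- pendants
  set L : Prop := ∃ z : P, z ⋖ x lo ∧ (uc z).card = 1 with hL
  set R : Prop := ∃ z : P, z ⋖ x hi ∧ (uc z).card = 1 with hR
  obtain ⟨zL, hzL⟩ : ∃ z : P, L → z ⋖ x lo ∧ (uc z).card = 1 := by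
    by_cases hc : L
    · obtain ⟨z, hz⟩ := hc
      exact ⟨z, fun _ => hz⟩
    · exact ⟨t, fun h1 => absurd h1 hc⟩
  obtain ⟨zR, hzR⟩ : ∃ z : P, R → z ⋖ x hi ∧ (uc z).card = 1 := by
    by_cases hc : R
    · obtain ⟨z, hz⟩ := hc
      exact ⟨z, fun _ => hz⟩
    · exact ⟨t, fun h1 => absurd h1 hc⟩
  obtain ⟨lo', hlo'⟩ : ∃ lo', (L → lo' = lo) ∧ (¬ L → lo' = lo + 1) := by
    by_cases hc : L
    · exact ⟨lo, fun _ => rfl, fun h1 => absurd hc h1⟩
    · exact ⟨lo + 1, fun h1 => absurd h1 hc, fun _ => rfl⟩
  obtain ⟨hi', hhi'⟩ : ∃ hi', (R → hi' = hi + 1) ∧ (¬ R → hi' = hi) := by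
    by_cases hc : R
    · exact ⟨hi + 1, fun _ => rfl, fun h1 => absurd hc h1⟩
    · exact ⟨hi, fun h1 => absurd h1 hc, fun _ => rfl⟩
  have hL0 : L → lo = 0 := fun hc => S.left (hsingle le_rfl hlt.le (hzL hc).1 (hzL hc).2).1
  have hRk : R → hi = k := fun hc => S.right (hsingle hlt.le le_rfl (hzR hc).1 (hzR hc).2).1
  have hlo1 : lo ≤ lo' ∧ lo' ≤ lo + 1 := by
    by_cases hc : L
    · rw [hlo'.1 hc]
      omega
    · rw [hlo'.2 hc]
      omega
  have hhi1 : hi ≤ hi' ∧ hi' ≤ hi + 1 := by
    by_cases hc : R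
    · rw [hhi'.1 hc]
      omega
    · rw [hhi'.2 hc]
      omega
  -- the new sequence
  obtain ⟨X, hX1, hX2, hX3⟩ : ∃ X : ℕ → P, (∀ a, a ≤ lo → X a = zL) ∧
      (∀ a, lo < a → a ≤ hi → X a = Y a) ∧ (∀ a, hi < a → X a = zR) := by
    refine ⟨fun a => if a ≤ lo then zL else if a ≤ hi then Y a else zR, ?_, ?_, ?_⟩
    · intro a h1
      simp only
      rw [if_pos h1]
    · intro a h1 h2
      simp only
      rw [if_neg (by omega), if_pos h2]
    · intro a h1
      simp only
      rw [if_neg (by omega), if_neg (by omega)]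
  have hlow : ∀ a, lo' ≤ a → a ≤ lo → L ∧ a = lo := by
    intro a h1 h2
    by_cases hc : L
    · exact ⟨hc, by omega⟩
    · have := hlo'.2 hc
      omega
  have hhigh : ∀ a, a ≤ hi' → hi < a → R ∧ a = hi + 1 := by
    intro a h1 h2
    by_cases hc : R
    · exact ⟨hc, by omega⟩
    · have := hhi'.2 hc
      omega
  -- the covers of the new elements
  have hcov : ∀ a, lo' ≤ a → a ≤ hi' → ∀ b, lo ≤ b → b ≤ hi → (X a ⋖ x b ↔ b = a ∨ b + 1 = a) := by
    intro a h1 h2 b h3 h4
    rcases Nat.lt_or_ge lo a with h5 | h5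
    · rcases Nat.lt_or_ge hi a with h6 | h6
      · obtain ⟨h7, h8⟩ := hhigh a h2 h6
        rw [hX3 a h6]
        have h9 := (hsingle hlt.le le_rfl (hzR h7).1 (hzR h7).2).2
        rw [← mem_uc, h9, mem_singleton]
        constructor
        · intro h10
          right
          by_contra h11
          exact S.inj b hi h3 (by omega) le_rfl h10
        · intro h10
          have : b = hi := by omega
          rw [this]
      · rw [hX2 a h5 h6]
        obtain ⟨e1, e2⟩ := hY a h5 h6
        have e3 := StB_uc_pair H e1 e2 (S.inj _ _ (by omega) (by omega) h6)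
        rw [← mem_uc, e3, mem_insert, mem_singleton]
        constructor
        · rintro (h10 | h10)
          · right
            by_contra h11
            rcases Nat.lt_or_ge b (a - 1) with h12 | h12
            · exact S.inj b (a - 1) h3 h12 (by omega) h10
            · exact S.inj (a - 1) b (by omega) (by omega) h4 h10.symm
          · left
            by_contra h11
            rcases Nat.lt_or_ge b a with h12 | h12
            · exact S.inj b a h3 h12 (by omega) h10
            · exact S.inj a b (by omega) (by omega) h4 h10.symm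
        · rintro (h10 | h10)
          · right
            rw [h10]
          · left
            have : b = a - 1 := by omega
            rw [this]
    · obtain ⟨h7, h8⟩ := hlow a h1 h5
      rw [hX1 a h5]
      have h9 := (hsingle le_rfl hlt.le (hzL h7).1 (hzL h7).2).2
      rw [← mem_uc, h9, mem_singleton]
      constructor
      · intro h10
        left
        by_contra h11
        exact S.inj lo b le_rfl (by omega) h4 h10.symm
      · intro h10
        have : b = lo := by omega
        rw [this]
  -- every new element has a cover in the strip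
  have hsome : ∀ a, lo' ≤ a → a ≤ hi' → ∃ b, lo ≤ b ∧ b ≤ hi ∧ X a ⋖ x b := by
    intro a h1 h2
    rcases Nat.lt_or_ge hi a with h3 | h3
    · refine ⟨a - 1, by omega, by omega, (hcov a h1 h2 (a - 1) (by omega) (by omega)).2 ?_⟩
      omega
    · exact ⟨a, by omega, h3, (hcov a h1 h2 a (by omega) h3).2 (Or.inl rfl)⟩
  have hlevX : ∀ a, lo' ≤ a → a ≤ hi' → lev (X a) = k + 1 := by
    intro a h1 h2
    obtain ⟨b, h3, h4, h5⟩ := hsome a h1 h2
    have := lev_covBy H.gauss h5
    rw [S.lev_x b h3 h4] at this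
    exact this
  have hleX : ∀ a, lo' ≤ a → a ≤ hi' → X a ≤ t := by
    intro a h1 h2
    obtain ⟨b, h3, h4, h5⟩ := hsome a h1 h2
    exact h5.le.trans (S.le_t b h3 h4)
  have hinjX : ∀ a b, lo' ≤ a → a < b → b ≤ hi' → X a ≠ X b := by
    intro a b h1 h2 h3 he
    have c1 := (hcov a h1 (by omega) a (by omega) (by omega)).2 (Or.inl rfl)
    rw [he, hcov b (by omega) h3 a (by omega) (by omega)] at c1
    have hb : b = a + 1 := by omega
    rcases Nat.lt_or_ge hi b with h4 | h4
    · have c2 := (hcov a h1 (by omega) (a - 1) (by omega) (by omega)).2 (by omega)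
      rw [he, hcov b (by omega) h3 (a - 1) (by omega) (by omega)] at c2
      omega
    · have c2 := (hcov b (by omega) h3 b (by omega) h4).2 (Or.inl rfl)
      rw [← he, hcov a h1 (by omega) b (by omega) h4] at c2
      omega
  have hsurjX : ∀ y, lev y = k + 1 → y ≤ t → ∃ a, lo' ≤ a ∧ a ≤ hi' ∧ X a = y := by
    intro y hy hyt
    obtain ⟨v, hv, hv2⟩ := exists_lev_succ hy
    have hyv : y ⋖ v := H.covBy_iff.2 ⟨hv, by omega⟩
    obtain ⟨a, ha1, ha2, rfl⟩ := S.surj v hv2 (h.cov_le hy.le ht hyt hyv)
    have hc2 := uc_card_le H y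
    have hc1 : 1 ≤ (uc y).card := Finset.card_pos.2 ⟨_, mem_uc.2 hyv⟩
    rcases Nat.lt_or_ge (uc y).card 2 with h2 | h2
    · have h1 : (uc y).card = 1 := by omega
      obtain ⟨e1, e2⟩ := hsingle ha1 ha2 hyv h1
      have e3 : a = lo ∨ a = hi := by
        by_contra hcon
        have := S.inner a (by omega) (by omega)
        omega
      rcases e3 with rfl | rfl
      · have hc : L := ⟨y, hyv, h1⟩
        refine ⟨a, (hlo'.1 hc).le, by omega, ?_⟩
        rw [hX1 a le_rfl]
        by_contra hne
        obtain ⟨f1, f2⟩ := hY (a + 1) (by omega) (by omega)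
        have f3 : ({Y (a + 1), zL, y} : Finset P) ⊆ dc (x a) := by
          intro w hw
          simp only [mem_insert, mem_singleton] at hw
          rw [mem_dc]
          rcases hw with rfl | rfl | rfl
          · simpa using f1
          · exact (hzL hc).1
          · exact hyv
        have f4 : ∀ z : P, (uc z).card = 1 → Y (a + 1) ≠ z := by
          rintro z hz rfl
          rw [StB_uc_pair H f1 f2 (S.inj _ _ (by omega) (by omega) (by omega)),
            Finset.card_pair (S.inj _ _ (by omega) (by omega) (by omega))] at hz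
          omega
        have f5 := Finset.card_le_card f3
        rw [Finset.card_insert_of_notMem, Finset.card_pair hne] at f5
        · have := dc_card_le H (x a)
          omega
        · simp only [mem_insert, mem_singleton, not_or]
          exact ⟨f4 _ (hzL hc).2, f4 _ h1⟩
      · have hc : R := ⟨y, hyv, h1⟩
        refine ⟨a + 1, by omega, (hhi'.1 hc).ge, ?_⟩
        rw [hX3 (a + 1) (by omega)]
        by_contra hne
        obtain ⟨f1, f2⟩ := hY a (by omega) (by omega)
        have f3 : ({Y a, zR, y} : Finset P) ⊆ dc (x a) := by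
          intro w hw
          simp only [mem_insert, mem_singleton] at hw
          rw [mem_dc]
          rcases hw with rfl | rfl | rfl
          · exact f2
          · exact (hzR hc).1
          · exact hyv
        have f4 : ∀ z : P, (uc z).card = 1 → Y a ≠ z := by
          rintro z hz rfl
          rw [StB_uc_pair H f1 f2 (S.inj _ _ (by omega) (by omega) (by omega)),
            Finset.card_pair (S.inj _ _ (by omega) (by omega) (by omega))] at hz
          omega
        have f5 := Finset.card_le_card f3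
        rw [Finset.card_insert_of_notMem, Finset.card_pair hne] at f5
        · have := dc_card_le H (x a)
          omega
        · simp only [mem_insert, mem_singleton, not_or]
          exact ⟨f4 _ (hzR hc).2, f4 _ h1⟩
    · -- double
      have key : ∀ a b, lo ≤ a → a < b → b ≤ hi → y ⋖ x a → y ⋖ x b →
          ∃ c, lo' ≤ c ∧ c ≤ hi' ∧ X c = y := by
        intro a b h3 h4 h5 h6 h7
        have h8 := StA_dcv_pos h6 h7
        rw [← hg _ _ (S.lev_x a h3 (by omega)) (S.lev_x b (by omega) h5) (S.inj a b h3 h4 h5)] at h8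
        have h9 : b = a + 1 := by
          by_contra hcon
          rw [S.far a b h3 (by omega) h5] at h8
          omega
        subst h9
        refine ⟨a + 1, by omega, by omega, ?_⟩
        rw [hX2 (a + 1) (by omega) h5]
        obtain ⟨f1, f2⟩ := hY (a + 1) (by omega) h5
        have f3 := hd (a + 1) (by omega) h5
        exact StB_unique f3 f1 f2 (by simpa using h6) h7
      obtain ⟨v, hv, hne⟩ : ∃ v ∈ uc y, v ≠ x a := by
        by_contra hcon
        push Not at hcon
        have : uc y ⊆ {x a} := fun v hv => by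
          rw [mem_singleton]
          exact hcon v hv
        have := Finset.card_le_card this
        rw [Finset.card_singleton] at this
        omega
      rw [mem_uc] at hv
      have hlv := lev_covBy H.gauss hv
      obtain ⟨b, hb1, hb2, rfl⟩ := S.surj v (by omega) (h.cov_le hy.le ht hyt hv)
      have hab : a ≠ b := fun he => hne (by rw [he])
      rcases Nat.lt_or_ge a b with h3 | h3
      · exact key a b ha1 h3 hb2 hyv hv
      · exact key b a hb1 (by omega) ha2 hv hyv
  have hinner : ∀ a, lo < a → a ≤ hi → (uc (X a)).card = 2 := by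
    intro a h1 h2
    obtain ⟨f1, f2⟩ := hY a h1 h2
    rw [hX2 a h1 h2, StB_uc_pair H f1 f2 (S.inj _ _ (by omega) (by omega) (by omega)),
      Finset.card_pair (S.inj _ _ (by omega) (by omega) (by omega))]
  have hfar : ∀ a b, lo' ≤ a → a + 1 < b → b ≤ hi' → ucv (X a) (X b) = 0 := by
    intro a b h1 h2 h3
    by_contra hcon
    obtain ⟨w, hw1, hw2⟩ := StA_of_ucv (Nat.one_le_iff_ne_zero.2 hcon)
    have hlw := lev_covBy H.gauss hw1
    have hla := hlevX a h1 (by omega)
    obtain ⟨c, hc1, hc2, rfl⟩ := S.surj w (by omega)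
      (h.cov_le hla.le ht (hleX a h1 (by omega)) hw1)
    rw [hcov a h1 (by omega) c hc1 hc2] at hw1
    rw [hcov b (by omega) h3 c hc1 hc2] at hw2
    omega
  have hnb : ∀ a, lo' ≤ a → a < hi' → ucv (X a) (X (a + 1)) = 1 := by
    intro a h1 h2
    have e1 := (hcov a h1 h2.le a (by omega) (by omega)).2 (Or.inl rfl)
    have e2 := (hcov (a + 1) (by omega) (by omega) a (by omega) (by omega)).2 (Or.inr rfl)
    have e3 := StA_ucv_pos e1 e2
    have e4 := h.ucv_le (k + 1) (X a) (X (a + 1)) le_rfl (hlevX a h1 h2.le)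
      (hinjX a (a + 1) h1 (by omega) (by omega))
    omega
  have hltX : lo' < hi' := by
    by_contra hcon
    have e1 : lo' = hi := by omega
    have e2 : hi' = hi := by omega
    have e3 : lo < hi := hlt
    have h2 := hinner hi e3 le_rfl
    have hl := hlevX hi (by omega) (by omega)
    obtain ⟨z, hz, hz2⟩ := H.exists_below (x := X hi) (j := k + 2) (by omega) (by
      have := h.hr
      omega)
    have hzc : z ⋖ X hi := H.covBy_iff.2 ⟨lt_of_le_of_ne hz (by rintro rfl; omega), by omega⟩
    have hz3 := h.low_dbl hl h2 hzc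
    obtain ⟨q, hq, hne⟩ : ∃ q ∈ uc z, q ≠ X hi := by
      by_contra hcon
      push Not at hcon
      have : uc z ⊆ {X hi} := fun v hv => by
        rw [mem_singleton]
        exact hcon v hv
      have := Finset.card_le_card this
      rw [Finset.card_singleton] at this
      omega
    rw [mem_uc] at hq
    have hlq := lev_covBy H.gauss hq
    have h5 : ucv (X hi) q = 1 := by
      rcases h.dbl_cases (by omega) hzc hq hne.symm with h6 | ⟨h6, -, -⟩
      · exact h6
      · omega
    have h6 := h.top_of_ucv hl.le h5.ge ht (hleX hi (by omega) (by omega))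
    obtain ⟨a, ha1, ha2, rfl⟩ := hsurjX q (by omega) h6
    have : a = hi := by omega
    exact hne (by rw [this])
  refine ⟨lo', hi', X, hltX, ?_, hlevX, hleX, hinjX, hsurjX, hnb, hfar, ?_, ?_, ?_⟩
  · by_cases hc : R
    · rw [hhi'.1 hc]
      have := S.hi_le
      omega
    · rw [hhi'.2 hc]
      have := S.hi_le
      omega
  · intro a h1 h2
    exact hinner a (by omega) (by omega)
  · intro h1
    by_cases hc : L
    · rw [hlo'.1 hc]
      exact hL0 hc
    · rw [hlo'.2 hc] at h1
      have := hinner (lo + 1) (by omega) (by omega)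
      omega
  · intro h1
    by_cases hc : R
    · rw [hhi'.1 hc]
      rw [hRk hc]
    · rw [hhi'.2 hc] at h1
      have := hinner hi hlt le_rfl
      omega

/-- the strips of level `k` -/
theorem Pre.sl : ∀ {k : ℕ}, Pre P r k → ∀ {t : P}, lev t = 0 →
    ∃ (lo hi : ℕ) (x : ℕ → P), SL P k t lo hi x := by
  intro k
  induction k with
  | zero =>
    intro h
    have := h.hj
    omega
  | succ k ih =>
    intro h t ht
    rcases Nat.eq_zero_or_pos k with rfl | hk
    · obtain ⟨x, hx⟩ := h.sl_one ht
      exact ⟨0, 1, x, hx⟩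
    · obtain ⟨lo, hi, x, hx⟩ := ih (h.mono hk (by omega)) ht
      exact SL.step h hk ht hx

end Pool.Agent.GaussPoset.Win
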