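import Pool.Agent.W_448C_h48.StB

/-!
# Strips of the first bad level (MP_448cb3_co, `b_1 = 2 b_0`), part C: the final form
-/

namespace Pool.Agent.GaussPoset.Win

set_option linter.unusedSectionVars false

open Finset

universe u

variable {P : Type u} [Fintype P] [PartialOrder P] [DecidableEq P] {r j : ℕ}

/-- the elements of level `j` below the maximal element `t` are `x 0, …, x m`, a path; the inner
elements are double-up, and if both ends are single-up then `m = j` -/
structure Strip (P : Type u) [Fintype P] [PartialOrder P] [DecidableEq P] (j : ℕ) (t : P) (m : ℕ)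
    (x : ℕ → P) : Prop where
  pos : 1 ≤ m
  lev_x : ∀ a, a ≤ m → lev (x a) = j
  le_t : ∀ a, a ≤ m → x a ≤ t
  inj : ∀ a b, a ≤ m → b ≤ m → x a = x b → a = b
  surj : ∀ y, lev y = j → y ≤ t → ∃ a, a ≤ m ∧ x a = y
  ucv_x : ∀ a b, a ≤ m → b ≤ m → a ≠ b →
    ucv (x a) (x b) = if a + 1 = b ∨ b + 1 = a then 1 else 0
  inner : ∀ a, 0 < a → a < m → (uc (x a)).card = 2
  both : (uc (x 0)).card = 1 → (uc (x m)).card = 1 → m = j

/-- the elements of level `j` below a maximal element form a strip -/
theorem Pre.strip (h : Pre P r j) {t : P} (ht : lev t = 0) :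
    ∃ (m : ℕ) (x : ℕ → P), Strip P j t m x := by
  obtain ⟨lo, hi, x, S⟩ := h.sl ht
  have hlt := S.lt
  have hne : ∀ a b, a ≤ hi - lo → b ≤ hi - lo → a ≠ b → x (lo + a) ≠ x (lo + b) := by
    intro a b ha hb hab
    rcases Nat.lt_or_ge a b with h1 | h1
    · exact S.inj _ _ (by omega) (by omega) (by omega)
    · exact (S.inj _ _ (by omega) (by omega) (by omega)).symm
  have hu : ∀ a b, a < b → b ≤ hi - lo →
      ucv (x (lo + a)) (x (lo + b)) = if a + 1 = b ∨ b + 1 = a then 1 else 0 := by
    intro a b h1 h2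
    by_cases hc : a + 1 = b
    · rw [if_pos (Or.inl hc), ← hc]
      exact S.nb (lo + a) (by omega) (by omega)
    · rw [if_neg (by omega)]
      exact S.far _ _ (by omega) (by omega) (by omega)
  refine ⟨hi - lo, fun a => x (lo + a), by omega, fun a ha => S.lev_x _ (by omega) (by omega),
    fun a ha => S.le_t _ (by omega) (by omega), ?_, ?_, ?_, ?_, ?_⟩
  · intro a b ha hb hab
    by_contra hcon
    exact hne a b ha hb hcon hab
  · intro y hy hyt
    obtain ⟨a, ha1, ha2, ha3⟩ := S.surj y hy hyt
    refine ⟨a - lo, by omega, ?_⟩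
    rw [Nat.add_sub_cancel' ha1]
    exact ha3
  · intro a b ha hb hab
    rcases Nat.lt_or_ge a b with h1 | h1
    · exact hu a b h1 hb
    · rw [StB_ucv_comm, hu b a (by omega) ha]
      exact if_congr or_comm rfl rfl
  · intro a h1 h2
    exact S.inner _ (by omega) (by omega)
  · intro h1 h2
    simp only [Nat.add_zero] at h1
    simp only [Nat.add_sub_cancel' hlt.le] at h2
    have e1 := S.left h1
    have e2 := S.right h2
    omega

/-- pairs of a strip with a common lower cover -/
theorem Strip.edge (h : Pre P r j) {t : P} {m : ℕ} {x : ℕ → P} (S : Strip P j t m x) {a b : ℕ}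
    (ha : a ≤ m) (hb : b ≤ m) (hab : a < b) (hd : dcv (x a) (x b) ≠ 0) :
    a + 1 = b ∨ (a = 0 ∧ b = m ∧ m = j ∧ (uc (x 0)).card = 1 ∧ (uc (x m)).card = 1) := by
  have hne : x a ≠ x b := fun he => by
    have := S.inj a b ha hb he
    omega
  rcases h.edge (S.lev_x a ha) hne hd with h1 | ⟨h1, h2, -⟩
  · rw [S.ucv_x a b ha hb (by omega)] at h1
    by_cases hc : a + 1 = b
    · exact Or.inl hc
    · rw [if_neg (by omega)] at h1
      omega
  · right
    have e1 : a = 0 := by
      by_contra hcon
      have := S.inner a (by omega) (by omega)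
      omega
    have e2 : b = m := by
      by_contra hcon
      have := S.inner b (by omega) (by omega)
      omega
    subst e1 e2
    exact ⟨rfl, rfl, S.both h1 h2, h1, h2⟩

end Pool.Agent.GaussPoset.Win
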