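import Pool.Agent.W_448C_h48.StC
import Pool.Agent.W_448C_h48.Arith
import Pool.Agent.W_448st_h88.MgB
import Pool.Agent.W_448kk_h94.KkD

/-!
# Strips of the first bad level (MP_448cb3_co, `b_1 = 2 b_0`): sums and degrees
-/

namespace Pool.Agent.GaussPoset.Win

set_option linter.unusedSectionVars false

open Finset

universe u

variable {P : Type u} [Fintype P] [PartialOrder P] [DecidableEq P] {r j : ℕ} {t : P} {m : ℕ}
  {x : ℕ → P}

/-- the sites of a strip -/
def SV (m : ℕ) (x : ℕ → P) : Finset P := (range (m + 1)).image x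

lemma mem_SV {a : ℕ} (ha : a ≤ m) : x a ∈ SV m x :=
  mem_image.2 ⟨a, mem_range.2 (by omega), rfl⟩

lemma Strip.sum_SV (S : Strip P j t m x) (f : P → ℤ) :
    ∑ v ∈ SV m x, f v = ∑ a ∈ range (m + 1), f (x a) := by
  unfold SV
  rw [sum_image]
  intro a ha b hb hab
  rw [mem_coe, mem_range] at ha hb
  exact S.inj a b (by omega) (by omega) hab

lemma Strip.sum_SV_erase (S : Strip P j t m x) {a : ℕ} (ha : a ≤ m) (f : P → ℤ) :
    ∑ v ∈ (SV m x).erase (x a), f v = ∑ b ∈ (range (m + 1)).erase a, f (x b) := by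
  have h1 := sum_erase_add (SV m x) f (mem_SV ha)
  have h2 := sum_erase_add (range (m + 1)) (fun b => f (x b)) (mem_range.2 (show a < m + 1 by omega))
  rw [S.sum_SV] at h1
  linarith

lemma StE_sum_two {s : Finset ℕ} {p q : ℕ} (hpq : p ≠ q) (hp : p ∈ s) (hq : q ∈ s) {f : ℕ → ℤ}
    (h : ∀ b ∈ s, b ≠ p → b ≠ q → f b = 0) : ∑ b ∈ s, f b = f p + f q := by
  rw [← sum_pair hpq]
  symm
  refine sum_subset ?_ ?_
  · intro b hb
    rw [mem_insert, mem_singleton] at hb
    rcases hb with rfl | rfl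
    · exact hp
    · exact hq
  · intro b hb hb2
    rw [mem_insert, mem_singleton, not_or] at hb2
    exact h b hb hb2.1 hb2.2

/-- weights on the edges of the strip and on the pair of its ends -/
def OnStrip (m : ℕ) (x : ℕ → P) (g : Finset P → ℤ) : Prop :=
  ∀ a b, a + 1 < b → b ≤ m → ¬ (a = 0 ∧ b = m) → g {x a, x b} = 0

/-- the row sums -/
lemma Strip.row_first (S : Strip P j t m x) (hm : 2 ≤ m) {g : Finset P → ℤ} (hg : OnStrip m x g) :
    St.dg g (SV m x) (x 0) = g {x 0, x 1} + g {x 0, x m} := by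
  unfold St.dg
  rw [S.sum_SV_erase (Nat.zero_le m)]
  refine StE_sum_two (f := fun b => g {x 0, x b}) (by omega) ?_ ?_ ?_
  · rw [mem_erase, mem_range]
    omega
  · rw [mem_erase, mem_range]
    omega
  · intro b hb h1 h2
    rw [mem_erase, mem_range] at hb
    exact hg 0 b (by omega) (by omega) (by omega)

lemma Strip.row_last (S : Strip P j t m x) (hm : 2 ≤ m) {g : Finset P → ℤ} (hg : OnStrip m x g) :
    St.dg g (SV m x) (x m) = g {x (m - 1), x m} + g {x 0, x m} := by
  unfold St.dg
  rw [S.sum_SV_erase le_rfl]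
  rw [pair_comm (x (m - 1)) (x m), pair_comm (x 0) (x m)]
  refine StE_sum_two (f := fun b => g {x m, x b}) (by omega) ?_ ?_ ?_
  · rw [mem_erase, mem_range]
    omega
  · rw [mem_erase, mem_range]
    omega
  · intro b hb h1 h2
    rw [mem_erase, mem_range] at hb
    show g {x m, x b} = 0
    rw [pair_comm]
    exact hg b m (by omega) le_rfl (by omega)

lemma Strip.row_mid (S : Strip P j t m x) {g : Finset P → ℤ} (hg : OnStrip m x g) {a : ℕ}
    (ha : a + 1 < m) :
    St.dg g (SV m x) (x (a + 1)) = g {x a, x (a + 1)} + g {x (a + 1), x (a + 2)} := by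
  unfold St.dg
  rw [S.sum_SV_erase (show a + 1 ≤ m by omega)]
  rw [pair_comm (x a) (x (a + 1))]
  refine StE_sum_two (f := fun b => g {x (a + 1), x b}) (by omega) ?_ ?_ ?_
  · rw [mem_erase, mem_range]
    omega
  · rw [mem_erase, mem_range]
    omega
  · intro b hb h1 h2
    rw [mem_erase, mem_range] at hb
    show g {x (a + 1), x b} = 0
    rcases Nat.lt_or_ge b (a + 1) with h3 | h3
    · rw [pair_comm]
      exact hg b (a + 1) (by omega) (by omega) (by omega)
    · exact hg (a + 1) b (by omega) (by omega) (by omega)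

/-- sum over the sites, first, last and middle sites -/
lemma Strip.sum_split (S : Strip P j t m x) {n : ℕ} (hm : m = n + 2) (f : P → ℤ) :
    ∑ v ∈ SV m x, f v = f (x 0) + f (x m) + ∑ a ∈ range (n + 1), f (x (a + 1)) := by
  rw [S.sum_SV, hm, sum_range_succ, sum_range_succ']
  ring

/-- the defects of the strip -/
lemma StE_Df (H : Gr P r) {v v' : P} (hv : lev v = j) (hne : v ≠ v') :
    Df j {v, v'} = (dcv v v' : ℤ) - ucv v v' := Df_pair H hv hne

lemma Strip.ne (S : Strip P j t m x) {a b : ℕ} (hab : a < b) (hb : b ≤ m) : x a ≠ x b := fun he => by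
  have := S.inj a b (by omega) hb he
  omega

lemma Strip.Df_adj (S : Strip P j t m x) (H : Gr P r) {k : ℕ} (hk : k < m) :
    Df j {x k, x (k + 1)} = (dcv (x k) (x (k + 1)) : ℤ) - 1 := by
  rw [StE_Df H (S.lev_x k hk.le) (S.ne (Nat.lt_succ_self k) hk),
    S.ucv_x k (k + 1) hk.le hk (by omega), if_pos (Or.inl rfl)]
  norm_num

lemma Strip.Df_ends (S : Strip P j t m x) (H : Gr P r) (hm : 2 ≤ m) :
    Df j {x 0, x m} = (dcv (x 0) (x m) : ℤ) := by
  rw [StE_Df H (S.lev_x 0 (by omega)) (S.ne (by omega) le_rfl),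
    S.ucv_x 0 m (by omega) le_rfl (by omega), if_neg (by omega)]
  norm_num

lemma Strip.dcv_far (h : Pre P r j) (S : Strip P j t m x) {a b : ℕ} (hab : a + 1 < b) (hb : b ≤ m)
    (hne : ¬ (a = 0 ∧ b = m)) : dcv (x a) (x b) = 0 := by
  by_contra hcon
  rcases S.edge h (by omega) hb (by omega) hcon with h1 | ⟨h1, h2, -⟩
  · omega
  · exact hne ⟨h1, h2⟩

lemma Strip.onStrip (h : Pre P r j) (S : Strip P j t m x) : OnStrip m x (Df j) := by
  intro a b hab hb hne
  rw [StE_Df h.H (S.lev_x a (by omega)) (S.ne (by omega) hb), S.dcv_far h hab hb hne,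
    S.ucv_x a b (by omega) hb (by omega), if_neg (by omega)]
  norm_num

/-- at most two double lower covers -/
lemma Strip.degD_le (h : Pre P r j) (S : Strip P j t m x) {a : ℕ} (ha : a ≤ m) :
    ∑ b ∈ (range (m + 1)).erase a, (dcv (x a) (x b) : ℤ) ≤ 2 := by
  classical
  have h1 : ∀ b, dcv (x a) (x b) = ∑ z ∈ dc (x a), if z ⋖ x b then 1 else 0 := by
    intro b
    unfold dcv
    rw [← Finset.card_filter]
    congr 1
    ext z
    simp only [mem_filter, mem_univ, true_and, mem_dc]
  have h2 : ∑ b ∈ (range (m + 1)).erase a, dcv (x a) (x b) ≤ (dc (x a)).card := by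
    rw [Finset.sum_congr rfl fun b _ => h1 b, Finset.sum_comm, Finset.card_eq_sum_ones]
    refine Finset.sum_le_sum fun z hz => ?_
    rw [← Finset.card_filter]
    rw [mem_dc] at hz
    by_contra hcon
    obtain ⟨b, hb, b', hb', hbb⟩ := Finset.one_lt_card.1 (not_le.1 hcon)
    rw [mem_filter, mem_erase, mem_range] at hb hb'
    have h3 : ({x a, x b, x b'} : Finset P) ⊆ uc z := by
      intro w hw
      simp only [mem_insert, mem_singleton] at hw
      rw [mem_uc]
      rcases hw with rfl | rfl | rfl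
      · exact hz
      · exact hb.2
      · exact hb'.2
    have h4 : x b ≠ x b' := fun he => hbb (S.inj b b' (by omega) (by omega) he)
    have h5 : x a ≠ x b := fun he => hb.1.1 (S.inj a b (by omega) (by omega) he).symm
    have h6 : x a ≠ x b' := fun he => hb'.1.1 (S.inj a b' (by omega) (by omega) he).symm
    have h7 := Finset.card_le_card h3
    rw [Finset.card_insert_of_notMem (by simp [h5, h6]), Finset.card_pair h4] at h7
    have := uc_card_le h.H z
    omega
  have h3 := dc_card_le h.H (x a)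
  have h4 : (∑ b ∈ (range (m + 1)).erase a, (dcv (x a) (x b) : ℤ)) =
      ((∑ b ∈ (range (m + 1)).erase a, dcv (x a) (x b) : ℕ) : ℤ) := by
    push_cast
    rfl
  rw [h4]
  exact_mod_cast h2.trans h3

/-- at least one double lower cover of a double-up site -/
lemma Strip.degD_pos (h : Pre P r j) (S : Strip P j t m x) (ht : lev t = 0) {a : ℕ} (ha : a ≤ m)
    (h2 : (uc (x a)).card = 2) :
    1 ≤ ∑ b ∈ (range (m + 1)).erase a, (dcv (x a) (x b) : ℤ) := by
  classical
  have hl := S.lev_x a ha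
  obtain ⟨z, hz, hz2⟩ := h.H.exists_below (x := x a) (j := j + 1) (by omega) h.hr
  have hzc : z ⋖ x a := h.H.covBy_iff.2 ⟨lt_of_le_of_ne hz (by rintro rfl; omega), by omega⟩
  have hz3 := h.low_dbl hl h2 hzc
  obtain ⟨q, hq, hne⟩ : ∃ q ∈ uc z, q ≠ x a := by
    by_contra hcon
    push Not at hcon
    have : uc z ⊆ {x a} := fun v hv => by
      rw [mem_singleton]
      exact hcon v hv
    have := Finset.card_le_card this
    rw [Finset.card_singleton] at this
    omega
  rw [mem_uc] at hq
  have hlq := lev_covBy h.H.gauss hq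
  have hd := StA_dcv_pos hzc hq
  have hqt := h.top_of_dcv hl (by omega) hd ht (S.le_t a ha)
  obtain ⟨b, hb, rfl⟩ := S.surj q (by omega) hqt
  have hab : b ≠ a := fun he => hne (by rw [he])
  calc (1 : ℤ) ≤ (dcv (x a) (x b) : ℤ) := by exact_mod_cast hd
    _ ≤ _ := Finset.single_le_sum (f := fun b => (dcv (x a) (x b) : ℤ))
      (fun c _ => Int.natCast_nonneg _) (mem_erase.2 ⟨hab, mem_range.2 (by omega)⟩)

/-- the row sums of the common covers -/
lemma Strip.dcv_mid (h : Pre P r j) (S : Strip P j t m x) {a : ℕ} (ha : a + 1 < m) :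
    ∑ b ∈ (range (m + 1)).erase (a + 1), (dcv (x (a + 1)) (x b) : ℤ) =
      dcv (x a) (x (a + 1)) + dcv (x (a + 1)) (x (a + 2)) := by
  rw [StB_dcv_comm (x a) (x (a + 1))]
  refine StE_sum_two (f := fun b => (dcv (x (a + 1)) (x b) : ℤ)) (by omega) ?_ ?_ ?_
  · rw [mem_erase, mem_range]
    omega
  · rw [mem_erase, mem_range]
    omega
  · intro b hb h1 h2
    rw [mem_erase, mem_range] at hb
    rcases Nat.lt_or_ge b (a + 1) with h3 | h3
    · rw [StB_dcv_comm, S.dcv_far h (by omega) (by omega) (by omega)]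
      rfl
    · rw [S.dcv_far h (by omega) (by omega) (by omega)]
      rfl

lemma Strip.dcv_first (h : Pre P r j) (S : Strip P j t m x) (hm : 2 ≤ m) :
    ∑ b ∈ (range (m + 1)).erase 0, (dcv (x 0) (x b) : ℤ) = dcv (x 0) (x 1) + dcv (x 0) (x m) := by
  refine StE_sum_two (f := fun b => (dcv (x 0) (x b) : ℤ)) (by omega) ?_ ?_ ?_
  · rw [mem_erase, mem_range]
    omega
  · rw [mem_erase, mem_range]
    omega
  · intro b hb h1 h2
    rw [mem_erase, mem_range] at hb
    rw [S.dcv_far h (by omega) (by omega) (by omega)]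
    rfl

lemma Strip.dcv_last (h : Pre P r j) (S : Strip P j t m x) (hm : 2 ≤ m) :
    ∑ b ∈ (range (m + 1)).erase m, (dcv (x m) (x b) : ℤ) =
      dcv (x (m - 1)) (x m) + dcv (x 0) (x m) := by
  rw [StB_dcv_comm (x (m - 1)) (x m), StB_dcv_comm (x 0) (x m)]
  refine StE_sum_two (f := fun b => (dcv (x m) (x b) : ℤ)) (by omega) ?_ ?_ ?_
  · rw [mem_erase, mem_range]
    omega
  · rw [mem_erase, mem_range]
    omega
  · intro b hb h1 h2
    rw [mem_erase, mem_range] at hb
    rw [StB_dcv_comm, S.dcv_far h (by omega) (by omega) (by omega)]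
    rfl

/-- the reversed strip -/
theorem Strip.rev (S : Strip P j t m x) : Strip P j t m (fun k => x (m - k)) := by
  refine ⟨S.pos, fun a _ => S.lev_x _ (by omega), fun a _ => S.le_t _ (by omega), ?_, ?_, ?_, ?_,
    ?_⟩
  · intro a b ha hb hab
    have := S.inj _ _ (by omega) (by omega) hab
    omega
  · intro y hy hyt
    obtain ⟨a, ha, rfl⟩ := S.surj y hy hyt
    refine ⟨m - a, by omega, ?_⟩
    show x (m - (m - a)) = x a
    congr 1
    omega
  · intro a b ha hb hab
    show ucv (x (m - a)) (x (m - b)) = _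
    rw [S.ucv_x _ _ (by omega) (by omega) (by omega)]
    refine if_congr ?_ rfl rfl
    omega
  · intro a h1 h2
    exact S.inner _ (by omega) (by omega)
  · intro h1 h2
    have h1' : (uc (x m)).card = 1 := h1
    have h2' : (uc (x (m - m))).card = 1 := h2
    rw [Nat.sub_self] at h2'
    exact S.both h2' h1'

end Pool.Agent.GaussPoset.Win
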