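import Pool.Agent.W_448C_h48.StE

/-!
# Strips of the first bad level (MP_448cb3_co, `b_1 = 2 b_0`): the possible defects
-/

namespace Pool.Agent.GaussPoset.Win

set_option linter.unusedSectionVars false

open Finset

universe u

variable {P : Type u} [Fintype P] [PartialOrder P] [DecidableEq P] {r j : ℕ} {t : P} {m : ℕ}
  {x : ℕ → P}

/-- rotation: the edge `x_0 x_1` is lost and the pair of the ends is new -/
def IsRot (j m : ℕ) (x : ℕ → P) : Prop :=
  2 ≤ m ∧ m = j ∧ (uc (x 0)).card = 1 ∧ (uc (x m)).card = 1 ∧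
    ∀ a b, a < b → b ≤ m →
      dcv (x a) (x b) = if (a = 0 ∧ b = m) ∨ (1 ≤ a ∧ a + 1 = b) then 1 else 0

/-- end doubling: `x_0 x_1` is doubled and `x_1 x_2` is lost -/
def IsDbl (m : ℕ) (x : ℕ → P) : Prop :=
  2 ≤ m ∧ ∀ a b, a < b → b ≤ m →
    dcv (x a) (x b) = if a = 0 ∧ b = 1 then 2 else if 2 ≤ a ∧ a + 1 = b then 1 else 0

/-- doubling of both end edges -/
def IsDbl2 (m : ℕ) (x : ℕ → P) : Prop :=
  5 ≤ m ∧ ∀ a b, a < b → b ≤ m →
    dcv (x a) (x b) = if (a = 0 ∧ b = 1) ∨ (a + 1 = m ∧ b = m) then 2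
      else if 2 ≤ a ∧ a + 1 = b ∧ b + 2 ≤ m then 1 else 0

/-- the values of `dcv` from the defects -/
lemma Strip.dcv_val (h : Pre P r j) (S : Strip P j t m x) (hm : 2 ≤ m) {D : ℕ → ℕ → ℕ}
    (h1 : ∀ k, k < m → Df j {x k, x (k + 1)} = (D k (k + 1) : ℤ) - 1)
    (h2 : Df j {x 0, x m} = (D 0 m : ℤ))
    (h3 : ∀ a b, a + 1 < b → b ≤ m → ¬ (a = 0 ∧ b = m) → D a b = 0) :
    ∀ a b, a < b → b ≤ m → dcv (x a) (x b) = D a b := by
  intro a b hab hb
  by_cases hc : a + 1 = b
  · subst hc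
    have e1 := h1 a (by omega)
    rw [S.Df_adj h.H (by omega)] at e1
    have : (dcv (x a) (x (a + 1)) : ℤ) = D a (a + 1) := by linarith
    exact_mod_cast this
  · by_cases hc2 : a = 0 ∧ b = m
    · obtain ⟨rfl, rfl⟩ := hc2
      rw [S.Df_ends h.H hm] at h2
      exact_mod_cast h2
    · rw [h3 a b (by omega) hb hc2, S.dcv_far h (by omega) hb hc2]

lemma Strip.isRot (h : Pre P r j) (S : Strip P j t m x) (hm : 2 ≤ m)
    (h0 : Df j {x 0, x 1} = -1) (h1 : ∀ k, 1 ≤ k → k < m → Df j {x k, x (k + 1)} = 0)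
    (h2 : Df j {x 0, x m} = 1) : IsRot j m x := by
  have h3 := h2
  rw [S.Df_ends h.H hm] at h3
  have h4 : dcv (x 0) (x m) ≠ 0 := by
    intro h5
    rw [h5] at h3
    norm_num at h3
  rcases S.edge h (by omega) le_rfl (show 0 < m by omega) h4 with h5 | ⟨-, -, h5, h6, h7⟩
  · omega
  · refine ⟨hm, h5, h6, h7, ?_⟩
    refine S.dcv_val h hm
      (D := fun a b => if (a = 0 ∧ b = m) ∨ (1 ≤ a ∧ a + 1 = b) then 1 else 0) ?_ ?_ ?_
    · intro k hk
      rcases Nat.eq_zero_or_pos k with rfl | hk0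
      · rw [Nat.zero_add, h0]
        split_ifs <;> omega
      · rw [h1 k hk0 hk]
        split_ifs <;> omega
    · beta_reduce
      rw [h2]
      split_ifs <;> omega
    · intro a b h8 h9 h10
      split_ifs <;> omega

lemma Strip.isDbl (h : Pre P r j) (S : Strip P j t m x) (hm : 2 ≤ m)
    (h0 : Df j {x 0, x 1} = 1) (h1 : Df j {x 1, x 2} = -1)
    (h2 : ∀ k, 2 ≤ k → k < m → Df j {x k, x (k + 1)} = 0)
    (h3 : Df j {x 0, x m} = 0) : IsDbl m x := by
  refine ⟨hm, ?_⟩
  refine S.dcv_val h hm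
    (D := fun a b => if a = 0 ∧ b = 1 then 2 else if 2 ≤ a ∧ a + 1 = b then 1 else 0) ?_ ?_ ?_
  · intro k hk
    rcases Nat.lt_or_ge k 2 with hk0 | hk0
    · have : k = 0 ∨ k = 1 := by omega
      rcases this with rfl | rfl
      · rw [Nat.zero_add, h0]
        split_ifs <;> omega
      · rw [show 1 + 1 = 2 from rfl, h1]
        split_ifs <;> omega
    · rw [h2 k hk0 hk]
      split_ifs <;> omega
  · beta_reduce
    rw [h3]
    split_ifs <;> omega
  · intro a b h8 h9 h10
    split_ifs <;> omega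

lemma Strip.isDbl2 (h : Pre P r j) (S : Strip P j t m x) {n : ℕ} (hm : m = n + 2) (hn : 3 ≤ n)
    (h0 : Df j {x 0, x 1} = 1) (h1 : Df j {x 1, x 2} = -1)
    (h2 : Df j {x n, x (n + 1)} = -1) (h2' : Df j {x (n + 1), x (n + 2)} = 1)
    (h4 : ∀ k, 2 ≤ k → k < n → Df j {x k, x (k + 1)} = 0)
    (h3 : Df j {x 0, x m} = 0) : IsDbl2 m x := by
  subst hm
  refine ⟨by omega, ?_⟩
  refine S.dcv_val h (by omega)
    (D := fun a b => if (a = 0 ∧ b = 1) ∨ (a + 1 = n + 2 ∧ b = n + 2) then 2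
      else if 2 ≤ a ∧ a + 1 = b ∧ b + 2 ≤ n + 2 then 1 else 0) ?_ ?_ ?_
  · intro k hk
    have hcase : k = 0 ∨ k = 1 ∨ (2 ≤ k ∧ k < n) ∨ k = n ∨ k = n + 1 := by omega
    rcases hcase with rfl | rfl | ⟨hk1, hk2⟩ | rfl | rfl
    · rw [Nat.zero_add, h0]
      split_ifs <;> omega
    · rw [show 1 + 1 = 2 from rfl, h1]
      split_ifs <;> omega
    · rw [h4 k hk1 hk2]
      split_ifs <;> omega
    · rw [h2]
      split_ifs <;> omega
    · rw [show n + 1 + 1 = n + 2 from rfl, h2']
      split_ifs <;> omega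
  · beta_reduce
    rw [h3]
    split_ifs <;> omega
  · intro a b h8 h9 h10
    split_ifs <;> omega

/-- the defects of a strip whose matching polynomial is `1` -/
theorem Strip.cases (h : Pre P r j) (ht : lev t = 0) (S : Strip P j t m x)
    (hmp : St.mp (Df j) ((range (m + 1)).image x) = 1) :
    (∀ a b, a < b → b ≤ m → dcv (x a) (x b) = ucv (x a) (x b)) ∨
      IsRot j m x ∨ IsRot j m (fun k => x (m - k)) ∨ IsDbl m x ∨ IsDbl m (fun k => x (m - k)) ∨
      IsDbl2 m x := by
  have hmp' : St.mp (Df j) (SV m x) = 1 := hmp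
  have hP1 := St.P2_eq_zero hmp'
  have hP2 := St.sq_eq hmp'
  have hP1' : ∑ u ∈ SV m x, St.dg (Df j) (SV m x) u = 0 := hP1
  have hP2' : 2 * ∑ u ∈ SV m x, St.dg (Df j) (SV m x) u ^ 2 =
      ∑ u ∈ SV m x, St.dg (fun T => Df j T ^ 2) (SV m x) u := hP2
  rcases Nat.lt_or_ge m 2 with hm2 | hm2
  · -- one edge
    have hm1 : m = 1 := by
      have := S.pos
      omega
    subst hm1
    left
    have hd : ∀ a, a ≤ 1 → St.dg (Df j) (SV 1 x) (x a) = Df j {x 0, x 1} := by
      intro a ha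
      unfold St.dg
      rw [S.sum_SV_erase ha]
      have hcase : a = 0 ∨ a = 1 := by omega
      rcases hcase with rfl | rfl
      · rw [show (range (1 + 1)).erase 0 = {1} by decide, sum_singleton]
      · rw [show (range (1 + 1)).erase 1 = {0} by decide, sum_singleton, pair_comm]
    rw [S.sum_SV, show range (1 + 1) = {0, 1} by decide, sum_pair (by norm_num), hd 0 (by omega),
      hd 1 le_rfl] at hP1'
    have h0 : Df j {x 0, x 1} = 0 := by linarith
    intro a b hab hb
    have e1 : a = 0 := by omega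
    have e2 : b = 1 := by omega
    subst e1 e2
    rw [StE_Df h.H (S.lev_x 0 (by omega)) (S.ne (by omega) le_rfl)] at h0
    omega
  obtain ⟨n, hn⟩ : ∃ n, m = n + 2 := ⟨m - 2, by omega⟩
  have hon := S.onStrip h
  have hon2 : OnStrip m x (fun T => Df j T ^ 2) := by
    intro a b h1 h2 h3
    show Df j {x a, x b} ^ 2 = 0
    rw [hon a b h1 h2 h3]
    norm_num
  -- the defects
  obtain ⟨c, hc⟩ : ∃ c : ℕ → ℤ, ∀ k, c k = Df j {x k, x (k + 1)} := ⟨_, fun _ => rfl⟩
  obtain ⟨β, hβ⟩ : ∃ β : ℤ, β = Df j {x 0, x m} := ⟨_, rfl⟩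
  have hm1 : m - 1 = n + 1 := by omega
  have hd0 : St.dg (Df j) (SV m x) (x 0) = c 0 + β := by
    rw [S.row_first hm2 hon, hc 0, hβ]
  have hdm : St.dg (Df j) (SV m x) (x m) = c (n + 1) + β := by
    rw [S.row_last hm2 hon, hc (n + 1), hβ, hm1, hn]
  have hdk : ∀ a, a < n + 1 → St.dg (Df j) (SV m x) (x (a + 1)) = c a + c (a + 1) := by
    intro a ha
    rw [S.row_mid hon (by omega), hc a, hc (a + 1)]
  have hq0 : St.dg (fun T => Df j T ^ 2) (SV m x) (x 0) = c 0 ^ 2 + β ^ 2 := by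
    rw [S.row_first hm2 hon2, hc 0, hβ]
  have hqm : St.dg (fun T => Df j T ^ 2) (SV m x) (x m) = c (n + 1) ^ 2 + β ^ 2 := by
    rw [S.row_last hm2 hon2, hc (n + 1), hβ, hm1, hn]
  have hqk : ∀ a, a < n + 1 →
      St.dg (fun T => Df j T ^ 2) (SV m x) (x (a + 1)) = c a ^ 2 + c (a + 1) ^ 2 := by
    intro a ha
    rw [S.row_mid hon2 (by omega), hc a, hc (a + 1)]
  -- the two sums
  have E1 : ∑ k ∈ range (n + 2), c k + β = 0 := by
    rw [S.sum_split hn, hd0, hdm,
      sum_congr rfl (fun a ha => hdk a (mem_range.1 ha)), Ar_sum_two] at hP1'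
    linarith
  have E2 : (c 0 + β) ^ 2 + (c (n + 1) + β) ^ 2 + ∑ a ∈ range (n + 1), (c a + c (a + 1)) ^ 2 =
      ∑ k ∈ range (n + 2), c k ^ 2 + β ^ 2 := by
    rw [S.sum_split hn, S.sum_split hn, hd0, hdm, hq0, hqm,
      sum_congr rfl (fun a ha => by rw [hdk a (mem_range.1 ha)]),
      sum_congr rfl (fun a ha => hqk a (mem_range.1 ha))] at hP2'
    have h1 := Ar_sum_two n (fun k => c k ^ 2)
    rw [h1] at hP2'
    linarith
  -- the bounds
  have hlow : ∀ k, k < n + 2 → -1 ≤ c k := by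
    intro k hk
    rw [hc k, S.Df_adj h.H (by omega)]
    have := Int.natCast_nonneg (dcv (x k) (x (k + 1)))
    omega
  have hβ0 : 0 ≤ β := by
    rw [hβ, S.Df_ends h.H hm2]
    exact Int.natCast_nonneg _
  have hs : ∀ a, a < n + 1 → c a + c (a + 1) =
      ∑ b ∈ (range (m + 1)).erase (a + 1), (dcv (x (a + 1)) (x b) : ℤ) - 2 := by
    intro a ha
    rw [S.dcv_mid h (by omega), hc a, hc (a + 1), S.Df_adj h.H (by omega), S.Df_adj h.H (by omega)]
    ring
  have hs1 : ∀ a, a < n + 1 → -1 ≤ c a + c (a + 1) := by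
    intro a ha
    rw [hs a ha]
    have := S.degD_pos h ht (show a + 1 ≤ m by omega) (S.inner _ (by omega) (by omega))
    linarith
  have hs2 : ∀ a, a < n + 1 → c a + c (a + 1) ≤ 0 := by
    intro a ha
    rw [hs a ha]
    have := S.degD_le h (show a + 1 ≤ m by omega)
    linarith
  have h0 : c 0 + β ≤ 1 := by
    have h1 := S.degD_le h (Nat.zero_le m)
    rw [S.dcv_first h hm2] at h1
    rw [hc 0, hβ, S.Df_adj h.H (by omega), S.Df_ends h.H hm2]
    have e1 : x (0 + 1) = x 1 := rfl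
    rw [e1]
    linarith
  have h1 : c (n + 1) + β ≤ 1 := by
    have h2 := S.degD_le h (le_refl m)
    rw [S.dcv_last h hm2, hm1] at h2
    rw [hc (n + 1), hβ, S.Df_adj h.H (by omega), S.Df_ends h.H hm2]
    have e1 : x (n + 1 + 1) = x m := by rw [hn]
    rw [e1]
    linarith
  have hpair : ∀ k, k < m → Df j {x (m - k), x (m - (k + 1))} = c (m - (k + 1)) := by
    intro k hk
    rw [hc, pair_comm, show m - (k + 1) + 1 = m - k by omega]
  have hends : Df j {x (m - 0), x (m - m)} = β := by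
    rw [Nat.sub_zero, Nat.sub_self, pair_comm, hβ]
  rcases Ar_strip hlow hs1 hs2 h0 h1 hβ0 E1 E2 with ⟨b0, hz⟩ | ⟨b1, c0, hz⟩ | ⟨b1, cn, hz⟩ |
    ⟨b1, c0, cn, hn1⟩ | ⟨b0, c0, c1, hz⟩ | ⟨b0, cn, cn', hz⟩ | ⟨b0, hn3, c0, c1, cn', cn, hz⟩
  · -- no defect
    left
    intro a b hab hb
    have e1 : Df j {x a, x b} = 0 := by
      by_cases hc1 : a + 1 = b
      · rw [← hc1, ← hc a]
        exact hz a (by omega)
      · by_cases hc2 : a = 0 ∧ b = m
        · rw [hc2.1, hc2.2, ← hβ]
          exact b0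
        · exact hon a b (by omega) hb hc2
    rw [StE_Df h.H (S.lev_x a (by omega)) (S.ne hab hb)] at e1
    omega
  · right; left
    refine S.isRot h hm2 ?_ ?_ ?_
    · rw [← c0, hc 0]
    · intro k hk1 hk2
      rw [← hc k]
      exact hz k hk1 (by omega)
    · rw [← hβ]
      exact b1
  · right; right; left
    refine S.rev.isRot h hm2 ?_ ?_ ?_
    · show Df j {x (m - 0), x (m - (0 + 1))} = -1
      rw [hpair 0 (by omega), show m - (0 + 1) = n + 1 by omega]
      exact cn
    · intro k hk1 hk2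
      show Df j {x (m - k), x (m - (k + 1))} = 0
      rw [hpair k hk2]
      exact hz _ (by omega)
    · show Df j {x (m - 0), x (m - m)} = 1
      rw [hends]
      exact b1
  · -- the pair of the ends would be a component
    exfalso
    have hsub : ({x 0, x m} : Finset P) ⊆ SV m x := by
      intro v hv
      rw [mem_insert, mem_singleton] at hv
      rcases hv with rfl | rfl
      · exact mem_SV (Nat.zero_le m)
      · exact mem_SV le_rfl
    have hU : ({x 0, x m} : Finset P) ∪ (SV m x \ {x 0, x m}) = SV m x :=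
      Finset.union_sdiff_of_subset hsub
    rw [← hU] at hmp'
    have h2 := St.mp_left disjoint_sdiff (fun u hu w hw => ?_) hmp'
    · have h3 := St.P2_eq_zero h2
      have h4 : St.P2 ({x 0, x m} : Finset P) (Df j) =
          Df j {x 0, x m} + Df j {x m, x 0} := by
        have hne : x 0 ≠ x m := S.ne (by omega) le_rfl
        unfold St.P2
        rw [sum_pair hne]
        have f1 : ({x 0, x m} : Finset P).erase (x 0) = {x m} := by
          rw [erase_insert]
          rw [mem_singleton]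
          exact hne
        have f2 : ({x 0, x m} : Finset P).erase (x m) = {x 0} := by
          rw [pair_comm, erase_insert]
          rw [mem_singleton]
          exact hne.symm
        rw [f1, f2, sum_singleton, sum_singleton]
      rw [h4, pair_comm (x m) (x 0), ← hβ, b1] at h3
      norm_num at h3
    · rw [mem_sdiff] at hw
      obtain ⟨hw1, hw2⟩ := hw
      unfold SV at hw1
      obtain ⟨b, hb, rfl⟩ := mem_image.1 hw1
      rw [mem_range] at hb
      have hb0 : b ≠ 0 := fun he => hw2 (by rw [he]; exact mem_insert_self _ _)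
      have hbm : b ≠ m := fun he => hw2 (by
        rw [he]
        exact mem_insert_of_mem (mem_singleton_self _))
      rw [mem_insert, mem_singleton] at hu
      rcases hu with rfl | rfl
      · by_cases hb1 : b = 1
        · rw [hb1, ← c0, hc 0]
        · exact hon 0 b (by omega) (by omega) (by omega)
      · rw [pair_comm]
        by_cases hb1 : b = n + 1
        · rw [hb1, hn, ← cn, hc (n + 1)]
        · exact hon b m (by omega) le_rfl (by omega)
  · right; right; right; left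
    refine S.isDbl h hm2 ?_ ?_ ?_ ?_
    · rw [← c0, hc 0]
    · rw [← c1, hc 1]
    · intro k hk1 hk2
      rw [← hc k]
      exact hz k hk1 (by omega)
    · rw [← hβ]
      exact b0
  · right; right; right; right; left
    refine S.rev.isDbl h hm2 ?_ ?_ ?_ ?_
    · show Df j {x (m - 0), x (m - (0 + 1))} = 1
      rw [hpair 0 (by omega), show m - (0 + 1) = n + 1 by omega]
      exact cn
    · show Df j {x (m - 1), x (m - (1 + 1))} = -1
      rw [hpair 1 (by omega), show m - (1 + 1) = n by omega]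
      exact cn'
    · intro k hk1 hk2
      show Df j {x (m - k), x (m - (k + 1))} = 0
      rw [hpair k hk2]
      exact hz _ (by omega)
    · show Df j {x (m - 0), x (m - m)} = 0
      rw [hends]
      exact b0
  · right; right; right; right; right
    refine S.isDbl2 h hn hn3 ?_ ?_ ?_ ?_ ?_ ?_
    · rw [← c0, hc 0]
    · rw [← c1, hc 1]
    · rw [← cn', hc n]
    · rw [← cn, hc (n + 1)]
    · intro k hk1 hk2
      rw [← hc k]
      exact hz k hk1 hk2
    · rw [← hβ]
      exact b0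

end Pool.Agent.GaussPoset.Win
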