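import Pool.Agent.W_448C_h48.StA

/-!
# The first bad level (MP_448cb3_co): no upper quads
-/

namespace Pool.Agent.GaussPoset.Win

set_option linter.unusedSectionVars false

open Finset

universe u

variable {P : Type u} [Fintype P] [PartialOrder P] [DecidableEq P] {r j : ℕ}

/-- at most three elements of level `j` are below an element of level `j - 2`, if level `j - 1` is
good -/
theorem dn_le_three (H : Gr P r) {k : ℕ} (hg : Good P (k + 1)) {x : P} (hx : lev x = k) :
    dn (k + 2) x ≤ 3 := by
  classical
  have hsub : ((lv P (k + 2)).filter (fun v => v < x)) ⊆ (dc x).biUnion dc := by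
    intro v hv
    rw [mem_filter, mem_lv] at hv
    rw [mem_biUnion]
    obtain ⟨y, hy, hy2⟩ := exists_lev_succ (x := v) (k := k + 1) (by omega)
    obtain ⟨y', hy', hy2'⟩ := Hul.exists_cov hv.2
    have hl := lev_covBy H.gauss hy'
    refine ⟨y', ?_, mem_dc.2 hy'⟩
    rw [mem_dc]
    exact H.covBy_iff.2 ⟨lt_of_le_of_ne hy2' (by rintro rfl; omega), by omega⟩
  have h0 : dn (k + 2) x ≤ ((dc x).biUnion dc).card := by
    unfold dn
    exact Finset.card_le_card hsub
  refine h0.trans ?_
  have hd := dc_card_le H x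
  rcases Nat.lt_or_ge (dc x).card 2 with h1 | h1
  · have h2 : ((dc x).biUnion dc).card ≤ (dc x).card * 2 :=
      Finset.card_biUnion_le_card_mul _ _ _ fun y _ => dc_card_le H y
    omega
  · obtain ⟨y, y', hne, hyy⟩ := Finset.card_eq_two.1 (le_antisymm hd h1)
    have hy : y ⋖ x := by
      rw [← mem_dc, hyy]
      simp
    have hy' : y' ⋖ x := by
      rw [← mem_dc, hyy]
      simp
    have hl := lev_covBy H.gauss hy
    have hl' := lev_covBy H.gauss hy'
    have hu := StA_ucv_pos hy hy'
    rw [hg y y' (by omega) (by omega) hne] at hu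
    obtain ⟨z, hz, hz'⟩ := StA_of_dcv hu
    rw [hyy, Finset.biUnion_insert, Finset.singleton_biUnion]
    have h2 := Finset.card_union_add_card_inter (dc y) (dc y')
    have h3 : 0 < (dc y ∩ dc y').card :=
      Finset.card_pos.2 ⟨z, by rw [mem_inter, mem_dc, mem_dc]; exact ⟨hz, hz'⟩⟩
    have h4 := dc_card_le H y
    have h5 := dc_card_le H y'
    omega

/-- no upper quads at the first bad level -/
theorem Pre.dn_le (h : Pre P r j) : ∀ x : P, lev x + 2 = j → dn j x ≤ 3 := by
  intro x hx
  subst hx
  exact dn_le_three h.H (h.good (lev x + 1) (by omega)) rfl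

end Pool.Agent.GaussPoset.Win
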